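import Pool.Agent.Lib.MP_a7c6c3_lc.ShrinkD

/-!
The complexity profile of a tuple of strings cannot always be shrunk, by any factor away from
zero and one, up to a polynomial error.
The machine maps strings to strings, tuples are coded by an arbitrary computable encoding.
-/

set_option autoImplicit false

namespace Pool.Agent.Results.MP_a7c6c3_lc.NoShrinking

open Pool.Agent.Lib.MP_a7c6c3_lc

/-- An optimal machine for plain programs: a partial computable map from strings to strings that
simulates every other one with a constant overhead in the length of programs. -/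
def Optimal (U : List Bool →. List Bool) : Prop :=
  Partrec U ∧ ∀ φ : List Bool →. List Bool, Partrec φ →
    ∃ d : ℕ, ∀ p x : List Bool, x ∈ φ p → ∃ q : List Bool, x ∈ U q ∧ q.length ≤ p.length + d

/-- Plain Kolmogorov complexity: the length of a shortest program for `x`. -/
noncomputable def plainC (U : List Bool →. List Bool) (x : List Bool) : ℕ :=
  sInf {m : ℕ | ∃ p : List Bool, x ∈ U p ∧ p.length = m}

theorem plain_spec {U : List Bool →. List Bool} (hU : Optimal U) (x : List Bool) :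
    ∃ p, x ∈ U p ∧ p.length = plainC U x := by
  obtain ⟨c, hc⟩ := hU.2 (fun _ => Part.some x) (Computable.const x).partrec
  obtain ⟨q, hq, -⟩ := hc [] x (Part.mem_some x)
  have hne : {m : ℕ | ∃ q : List Bool, x ∈ U q ∧ q.length = m}.Nonempty := ⟨_, q, hq, rfl⟩
  exact Nat.sInf_mem hne

theorem sub_eq_sort {k : ℕ} (S : Finset (Fin k)) (a : Fin k → List Bool) :
    sub S a = (S.sort (· ≤ ·)).map a := by
  unfold sub
  congr 1
  refine List.Perm.eq_of_pairwise (le := (· ≤ ·)) (fun x y _ _ => le_antisymm)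
    ((List.pairwise_le_finRange k).filter _) (Finset.pairwise_sort S _) ?_
  refine (List.perm_ext_iff_of_nodup ((List.nodup_finRange k).filter _) (S.sort_nodup _)).2 ?_
  intro i
  simp

theorem compare {U : List Bool →. List Bool} (hU : Optimal U)
    {enc : List (List Bool) → List Bool} (he : Computable enc)
    (hi : ∀ x y, x.length = y.length → enc x = enc y → x = y)
    {W : List Bool →. List (List Bool)} (hW : Opt W) (k : ℕ) :
    ∃ d : ℕ, ∀ x : List (List Bool), x.length ≤ k →
      plainC U (enc x) ≤ cx W x + d ∧ cx W x ≤ plainC U (enc x) + d := by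
  obtain ⟨d1, h1⟩ := hU.2 (fun p => (W p).map enc) (hW.1.map (he.comp Computable.snd).to₂)
  obtain ⟨ψ, hψ, hm⟩ := KB.exists_inv (fun x : List (List Bool) => (enc x, x.length))
    (he.pair Computable.list_length) fun x y h =>
      hi x y (congrArg Prod.snd h) (congrArg Prod.fst h)
  have h2 := fun m : ℕ => hW.2 (fun p => (U p).bind fun y => ψ (y, m))
    (hU.1.bind (hψ.comp (Computable.snd.pair (Computable.const m))).to₂)
  choose d2 h2 using h2
  refine ⟨d1 + ∑ m ∈ Finset.range (k + 1), d2 m, fun x hx => ⟨?_, ?_⟩⟩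
  · obtain ⟨p, hp, hl⟩ := cx_spec hW x
    obtain ⟨q, hq, h3⟩ := h1 p (enc x) (Part.mem_map enc hp)
    have h4 : plainC U (enc x) ≤ q.length := Nat.sInf_le ⟨q, hq, rfl⟩
    omega
  · obtain ⟨p, hp, hl⟩ := plain_spec hU (enc x)
    obtain ⟨q, hq, h3⟩ := h2 x.length p x (Part.mem_bind hp (hm x))
    have h4 := cx_le_of_mem hq
    have h5 : d2 x.length ≤ ∑ m ∈ Finset.range (k + 1), d2 m :=
      Finset.single_le_sum (fun _ _ => Nat.zero_le _) (Finset.mem_range.2 (by omega))
    omega

theorem base : ∀ U : List Bool →. List Bool, Optimal U →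
    ∀ enc : List (List Bool) → List Bool, Computable enc →
      (∀ x y, x.length = y.length → enc x = enc y → x = y) →
      ∀ n₀ : ℕ, ∃ n ≥ n₀, ∃ a : Fin 325 → List Bool, (∀ i, (a i).length ≤ n) ∧
        ∀ l : ℝ, 1 / rt n ≤ l → l ≤ 1 - 1 / rt n →
          ∀ a' : Fin 325 → List Bool, ∃ S : Finset (Fin 325), S.Nonempty ∧
            rt n < |(plainC U (enc ((S.sort (· ≤ ·)).map a')) : ℝ)
              - l * (plainC U (enc ((S.sort (· ≤ ·)).map a)) : ℝ)| := by
  intro U hU enc he hi n₀
  obtain ⟨W, hW⟩ := exists_opt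
  by_contra hc
  refine not_shr hW ?_
  rw [show Fintype.card Var + 1 = 325 by decide +kernel]
  generalize 325 = k at hc ⊢
  push Not at hc
  obtain ⟨d, hd⟩ := compare hU he hi hW k
  refine ⟨1 + 2 * d, n₀ + 1, fun n hn a ha => ?_⟩
  obtain ⟨l, l1, l2, a', h1⟩ := hc n (by omega) a ha
  refine ⟨l, l1, l2, a', fun S hS => ?_⟩
  have h2 := h1 S hS
  rw [← sub_eq_sort, ← sub_eq_sort] at h2
  have hl : ∀ b : Fin k → List Bool, (sub S b).length ≤ k := fun b => by
    rw [sub, List.length_map]
    exact (List.length_filter_le _ _).trans_eq List.length_finRange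
  obtain ⟨h3, h4⟩ := hd _ (hl a)
  obtain ⟨h5, h6⟩ := hd _ (hl a')
  have h7 : 1 ≤ rt n := Real.one_le_rpow (by exact_mod_cast (by omega : 1 ≤ n)) (by norm_num)
  have h8 : (0 : ℝ) ≤ d := Nat.cast_nonneg d
  have h9 : (d : ℝ) ≤ d * rt n := le_mul_of_one_le_right h8 h7
  have l3 : 0 < 1 / rt n := by positivity
  have l4 : l * d ≤ d := mul_le_of_le_one_left h8 (by linarith)
  rw [abs_le] at h2 ⊢
  have h3' : l * (plainC U (enc (sub S a)) : ℝ) ≤ l * (cx W (sub S a) + d) :=
    mul_le_mul_of_nonneg_left (by exact_mod_cast h3) (by linarith)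
  have h4' : l * (cx W (sub S a) : ℝ) ≤ l * (plainC U (enc (sub S a)) + d) :=
    mul_le_mul_of_nonneg_left (by exact_mod_cast h4) (by linarith)
  have h5' : (plainC U (enc (sub S a')) : ℝ) ≤ cx W (sub S a') + d := by exact_mod_cast h5
  have h6' : (cx W (sub S a') : ℝ) ≤ plainC U (enc (sub S a')) + d := by exact_mod_cast h6
  constructor <;> linarith [h2.1, h2.2]

/-- Optimal machines exist. -/
theorem exists_optimal : ∃ U, Optimal U := by
  obtain ⟨W, hW⟩ := exists_opt
  have h1 : Computable fun r : List Bool × List (List Bool) => r.2.headD [] := by fun_prop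
  have h2 : Computable fun r : List Bool × List Bool => [r.2] := by fun_prop
  refine ⟨fun p => (W p).map fun x => x.headD [], hW.1.map h1.to₂, fun φ hφ => ?_⟩
  obtain ⟨d, hd⟩ := hW.2 (fun p => (φ p).map fun s => [s]) (hφ.map h2.to₂)
  refine ⟨d, fun p x hx => ?_⟩
  obtain ⟨q, hq, hl⟩ := hd p [x] (Part.mem_map (fun s => [s]) hx)
  exact ⟨q, Part.mem_map (fun x => x.headD []) hq, hl⟩

theorem result : ∀ k : ℕ, 325 ≤ k → ∀ U : List Bool →. List Bool, Optimal U →
    ∀ enc : List (List Bool) → List Bool, Computable enc →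
      (∀ x y, x.length = y.length → enc x = enc y → x = y) →
      ∀ n₀ : ℕ, ∃ n : ℕ, n₀ ≤ n ∧ ∃ a : Fin k → List Bool, (∀ i, (a i).length ≤ n) ∧
        ∀ l : ℝ, (n : ℝ) ^ (-(1 / 10000) : ℝ) ≤ l → l ≤ 1 - (n : ℝ) ^ (-(1 / 10000) : ℝ) →
          ∀ a' : Fin k → List Bool, ∃ S : Finset (Fin k), S.Nonempty ∧
            (n : ℝ) ^ (1 / 10000 : ℝ) < |(plainC U (enc ((S.sort (· ≤ ·)).map a')) : ℝ)
              - l * (plainC U (enc ((S.sort (· ≤ ·)).map a)) : ℝ)| := by
  intro k hk U hU enc he hi n₀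
  obtain ⟨n, hn, a, ha, h1⟩ := base U hU enc he hi n₀
  generalize 325 = k₀ at hk a ha h1
  refine ⟨n, hn, fun i => if h : i.1 < k₀ then a ⟨i.1, h⟩ else [], fun i => ?_,
    fun l l1 l2 a' => ?_⟩
  · by_cases h2 : i.1 < k₀
    · simpa [h2] using ha _
    · simp [h2]
  · rw [Real.rpow_neg (Nat.cast_nonneg n), ← one_div] at l1 l2
    obtain ⟨S, hS, h2⟩ := h1 l l1 l2 fun i => a' (Fin.castLE hk i)
    refine ⟨S.map (Fin.castLEEmb hk), hS.map, ?_⟩
    have h4 : (S.sort (· ≤ ·)).map (Fin.castLEEmb hk) = (S.map (Fin.castLEEmb hk)).sort (· ≤ ·) :=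
      Finset.map_sort _ _ _ _ fun _ _ _ _ => Iff.rfl
    rw [← h4, List.map_map, List.map_map]
    have h3 : (fun i : Fin k => if h : i.1 < k₀ then a ⟨i.1, h⟩ else []) ∘ Fin.castLEEmb hk = a :=
      funext fun i => by simp
    rw [h3]
    exact h2

end Pool.Agent.Results.MP_a7c6c3_lc.NoShrinking
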